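import Pool.Agent.K1H34.HYC.Stm

set_option autoImplicit false

/-!
# Project HYC: S_GREEDY and S_BRK
-/

open Classical Finset

namespace Pool.Agent.K1H38.HYC

open Pool.Agent.K1H34.HYC

theorem greedy_aux (R V : Type) [Fintype R] (C : R → Finset V) (conf : R → V → R → V → Prop)
    (hs : ∀ ρ y ρ' y', conf ρ y ρ' y' → conf ρ' y' ρ y) (hn : ∀ ρ, (C ρ).Nonempty)
    (hc : ∀ ρ, ∀ g : R → V, (∀ ρ', g ρ' ∈ C ρ') →
      ((C ρ).filter (fun y => ∃ ρ', ρ' ≠ ρ ∧ conf ρ y ρ' (g ρ'))).card < (C ρ).card)
    (Q : Finset R) : ∃ g : R → V, (∀ ρ, g ρ ∈ C ρ) ∧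
      ∀ ρ ∈ Q, ∀ ρ' ∈ Q, ρ ≠ ρ' → ¬ conf ρ (g ρ) ρ' (g ρ') := by
  induction Q using Finset.induction_on with
  | empty =>
    choose g hg using hn
    exact ⟨g, hg, by simp⟩
  | insert a Q ha ih =>
    obtain ⟨g, hg, hQ⟩ := ih
    obtain ⟨y, hy, hyn⟩ : ∃ y ∈ C a, ¬ ∃ ρ', ρ' ≠ a ∧ conf a y ρ' (g ρ') := by
      by_contra hcon
      push Not at hcon
      have h1 := hc a g hg
      have h2 : (C a).filter (fun y => ∃ ρ', ρ' ≠ a ∧ conf a y ρ' (g ρ')) = C a := by
        refine Finset.filter_true_of_mem fun y hy => ?_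
        exact hcon y hy
      rw [h2] at h1
      exact lt_irrefl _ h1
    have hno : ∀ ρ', ρ' ≠ a → ¬ conf a y ρ' (g ρ') := fun ρ' h1 h2 => hyn ⟨ρ', h1, h2⟩
    refine ⟨Function.update g a y, ?_, ?_⟩
    · intro ρ
      by_cases h : ρ = a
      · subst h
        rw [Function.update_self]
        exact hy
      · rw [Function.update_of_ne h]
        exact hg ρ
    · intro ρ hρ ρ' hρ' hne
      rw [Finset.mem_insert] at hρ hρ'
      by_cases h : ρ = a
      · subst h
        have h' : ρ' ≠ ρ := fun h => hne h.symm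
        rw [Function.update_self, Function.update_of_ne h']
        exact hno ρ' h'
      · by_cases h' : ρ' = a
        · subst h'
          rw [Function.update_self, Function.update_of_ne h]
          exact fun hcf => hno ρ h (hs _ _ _ _ hcf)
        · rw [Function.update_of_ne h, Function.update_of_ne h']
          exact hQ ρ (hρ.resolve_left h) ρ' (hρ'.resolve_left h') hne

theorem t_GREEDY : S_GREEDY := by
  intro R V _ C conf hs hn hc
  obtain ⟨g, hg, h⟩ := greedy_aux R V C conf hs hn hc Finset.univ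
  exact ⟨g, hg, fun ρ ρ' hne => h ρ (Finset.mem_univ _) ρ' (Finset.mem_univ _) hne⟩

/-- the remaining lengths -/
theorem brk_aux (s E : ℕ) : ∃ a : ℕ → ℕ, a 0 = 2 ^ E * 2 ^ s ∧ a (E * 2 ^ s) = 2 ^ s ∧
    (∀ m < E * 2 ^ s, a (m + 1) < a m ∧ (a m - a (m + 1)) * 2 ^ s ≤ a m) ∧
    ∀ m ≤ E * 2 ^ s, a m ≤ 2 ^ E * 2 ^ s := by
  induction E with
  | zero => exact ⟨fun _ => 2 ^ s, by simp, by simp, by simp, by simp⟩
  | succ E ih =>
    obtain ⟨a, h0, h1, h2, h3⟩ := ih
    obtain ⟨T, hT⟩ : ∃ T, T = 2 ^ s := ⟨_, rfl⟩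
    obtain ⟨e, he⟩ : ∃ e, e = 2 ^ E := ⟨_, rfl⟩
    have hT0 : 0 < T := by rw [hT]; positivity
    have he0 : 0 < e := by rw [he]; positivity
    have hp : 2 ^ (E + 1) * 2 ^ s = 2 * (e * T) := by rw [hT, he, pow_succ]; ring
    rw [hp]
    rw [← hT, ← he] at h0 h3
    rw [← hT] at h1 h2 ⊢
    have hET : (E + 1) * T = E * T + T := by ring
    rw [hET]
    refine ⟨fun m => if m < T then 2 * (e * T) - m * e else a (m - T), ?_, ?_, ?_, ?_⟩
    · simp [hT0]
    · have : ¬ (E * T + T < T) := by omega
      simp only [this, if_false, Nat.add_sub_cancel]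
      exact h1
    · intro m hm
      by_cases hmT : m < T
      · have hx : m * e + e ≤ e * T := by
          have : (m + 1) * e ≤ T * e := Nat.mul_le_mul_right e hmT
          nlinarith
        have hd : (if m + 1 < T then 2 * (e * T) - (m + 1) * e else a (m + 1 - T)) =
            2 * (e * T) - (m * e + e) := by
          by_cases hm1 : m + 1 < T
          · rw [if_pos hm1]
            congr 1
            ring
          · rw [if_neg hm1]
            have h4 : m + 1 = T := by omega
            rw [h4, Nat.sub_self, h0]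
            have : m * e + e = e * T := by rw [← h4]; ring
            rw [this]
            omega
        simp only [hmT, if_true]
        rw [hd]
        constructor
        · omega
        · have h5 : 2 * (e * T) - m * e - (2 * (e * T) - (m * e + e)) = e := by omega
          rw [h5]
          omega
      · have h4 : ¬ (m + 1 < T) := by omega
        simp only [hmT, h4, if_false]
        have h5 : m + 1 - T = m - T + 1 := by omega
        rw [h5]
        exact h2 (m - T) (by omega)
    · intro m hm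
      by_cases hmT : m < T
      · simp only [hmT, if_true]
        omega
      · simp only [hmT, if_false]
        have := h3 (m - T) (by omega)
        omega

theorem t_BRK : S_BRK := by
  intro l g
  obtain ⟨a, h0, h1, h2, h3⟩ := brk_aux (l + 7) (g + 7)
  obtain ⟨K, hK⟩ : ∃ K, K = 2 ^ (g + 7) * 2 ^ (l + 7) := ⟨_, rfl⟩
  obtain ⟨N, hN⟩ : ∃ N, N = (g + 7) * 2 ^ (l + 7) := ⟨_, rfl⟩
  rw [← hK] at h0 h3
  rw [← hN] at h1 h2 h3
  have hK0 : 0 < K := by rw [hK]; positivity
  have ha : 0 < a N := by rw [h1]; positivity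
  refine ⟨K, N + 1, fun m => if m ≤ N then K - a m else K, hK0, Nat.succ_pos N,
    by rw [hN], ?_, ?_, ?_, ?_, ?_⟩
  · simp [h0]
  · simp
  · intro m hm
    have hmN : m ≤ N := by omega
    simp only [hmN, if_true]
    have h4 := h3 m hmN
    by_cases hm1 : m + 1 ≤ N
    · simp only [hm1, if_true]
      have h5 := (h2 m (by omega)).1
      have h6 := h3 (m + 1) hm1
      omega
    · simp only [hm1, if_false]
      have h5 : m = N := by omega
      subst h5
      omega
  · intro m hm
    have hmN : m ≤ N := by omega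
    have hm1 : m + 1 ≤ N := by omega
    simp only [hmN, hm1, if_true]
    have h4 := h3 m hmN
    have h6 := h3 (m + 1) hm1
    obtain ⟨h5, h7⟩ := h2 m (by omega)
    have e1 : K - a (m + 1) - (K - a m) = a m - a (m + 1) := by omega
    have e2 : K - (K - a m) = a m := by omega
    rw [e1, e2]
    exact h7
  · have e : N + 1 - 1 = N := rfl
    rw [e]
    simp only [le_refl, if_true]
    have h4 := h3 N le_rfl
    have e2 : K - (K - a N) = a N := by omega
    rw [e2, h1, hK]
    exact le_of_eq (by ring)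

end Pool.Agent.K1H38.HYC
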