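import Pool.Agent.K1H34.HYC.Stm

set_option autoImplicit false

/-!
# Project HYC: S_POP
-/

open Classical Finset

namespace Pool.Agent.K1H38.HYC

open Pool.Agent.K1H34.HYC

/-- at most one index satisfies `p` -/
theorem uniq_sum {K : Type} [Fintype K] {p : K → Prop} [DecidablePred p] (h : ∀ k k', p k → p k' → k = k') {c : ℝ}
    (hc : 0 ≤ c) : ∑ k, (if p k then c else 0) ≤ c := by
  rw [← Finset.sum_filter, Finset.sum_const, nsmul_eq_mul]
  have h1 : (univ.filter p).card ≤ 1 := by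
    rw [Finset.card_le_one]
    intro a ha b hb
    exact h a b (Finset.mem_filter.1 ha).2 (Finset.mem_filter.1 hb).2
  have h2 : ((univ.filter p).card : ℝ) ≤ 1 := by exact_mod_cast h1
  nlinarith

section

variable {X I : Type} [Fintype X] (w : I → X → ℕ) (b D : ℕ)

/-- the points of scale `k` -/
noncomputable def sc (i : I) (k : ℕ) : Finset X :=
  univ.filter (fun x => w i x * 2 ^ (b + k) ≤ D ∧ D < w i x * 2 ^ (b + k + 1))

theorem mem_sc {i : I} {k : ℕ} {x : X} :
    x ∈ sc w b D i k ↔ w i x * 2 ^ (b + k) ≤ D ∧ D < w i x * 2 ^ (b + k + 1) := by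
  simp [sc]

theorem sc_unique {i : I} {k k' : ℕ} {x : X} (h : x ∈ sc w b D i k) (h' : x ∈ sc w b D i k') :
    k = k' := by
  rw [mem_sc] at h h'
  by_contra hne
  rcases Nat.lt_or_gt_of_ne hne with hlt | hlt
  · have h1 : w i x * 2 ^ (b + k + 1) ≤ w i x * 2 ^ (b + k') :=
      Nat.mul_le_mul_left _ (Nat.pow_le_pow_right (by norm_num) (by omega))
    omega
  · have h1 : w i x * 2 ^ (b + k' + 1) ≤ w i x * 2 ^ (b + k) :=
      Nat.mul_le_mul_left _ (Nat.pow_le_pow_right (by norm_num) (by omega))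
    omega

theorem sc_pos {i : I} {k : ℕ} {x : X} (h : x ∈ sc w b D i k) : 1 ≤ w i x := by
  rw [mem_sc] at h
  by_contra hc
  have h0 : w i x = 0 := by omega
  rw [h0, zero_mul] at h
  omega

theorem sc_exists {i : I} {x : X} (hw : 1 ≤ w i x) (hb : w i x * 2 ^ b ≤ D) :
    ∃ k : Fin (D + 1), x ∈ sc w b D i k := by
  have hpos : 0 < w i x * 2 ^ b := by positivity
  have hq : D / (w i x * 2 ^ b) ≠ 0 := (Nat.div_pos hb hpos).ne'
  obtain ⟨k, hk⟩ : ∃ k, k = Nat.log 2 (D / (w i x * 2 ^ b)) := ⟨_, rfl⟩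
  have h1 : 2 ^ k * (w i x * 2 ^ b) ≤ D := by
    rw [← Nat.le_div_iff_mul_le hpos, hk]
    exact Nat.pow_log_le_self 2 hq
  have h2 : D < 2 ^ (k + 1) * (w i x * 2 ^ b) := by
    rw [← Nat.div_lt_iff_lt_mul hpos, hk]
    exact Nat.lt_pow_succ_log_self (by norm_num) _
  have h3 : k < D + 1 := by
    have h4 : k < 2 ^ k := Nat.lt_two_pow_self
    have h5 : 2 ^ k * 1 ≤ 2 ^ k * (w i x * 2 ^ b) := Nat.mul_le_mul_left _ hpos
    omega
  refine ⟨⟨k, h3⟩, ?_⟩
  rw [mem_sc]
  constructor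
  · calc w i x * 2 ^ (b + k) = 2 ^ k * (w i x * 2 ^ b) := by rw [pow_add]; ring
      _ ≤ D := h1
  · calc D < 2 ^ (k + 1) * (w i x * 2 ^ b) := h2
      _ = w i x * 2 ^ (b + k + 1) := by rw [pow_add, pow_add, pow_add]; ring

/-- the sum over the scales is at most the whole sum -/
theorem sum_sc_le (i : I) : ∑ k : Fin (D + 1), ∑ x ∈ sc w b D i k, (w i x : ℝ) ≤
    ∑ x, (w i x : ℝ) := by
  have h1 : ∀ k : Fin (D + 1), ∑ x ∈ sc w b D i k, (w i x : ℝ) =
      ∑ x, if x ∈ sc w b D i k then (w i x : ℝ) else 0 := by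
    intro k
    rw [← Finset.sum_filter]
    congr 1
    ext x
    simp
  rw [Finset.sum_congr rfl fun k _ => h1 k, Finset.sum_comm]
  refine Finset.sum_le_sum fun x _ => uniq_sum (fun k k' h h' => ?_) (Nat.cast_nonneg (w i x))
  exact Fin.ext (sc_unique w b D h h')

/-- every sum is at most the sum over the scales -/
theorem le_sum_sc (i : I) (hb : ∀ x, w i x * 2 ^ b ≤ D) (T : Finset X) :
    ∑ x ∈ T, (w i x : ℝ) ≤
      ∑ k : Fin (D + 1), ∑ x ∈ T.filter (fun x => x ∈ sc w b D i k), (w i x : ℝ) := by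
  have h1 : ∀ k : Fin (D + 1), ∑ x ∈ T.filter (fun x => x ∈ sc w b D i k), (w i x : ℝ) =
      ∑ x ∈ T, if x ∈ sc w b D i k then (w i x : ℝ) else 0 := by
    intro k
    rw [← Finset.sum_filter]
  rw [Finset.sum_congr rfl fun k _ => h1 k, Finset.sum_comm]
  refine Finset.sum_le_sum fun x _ => ?_
  by_cases hw : 1 ≤ w i x
  · obtain ⟨k, hk⟩ := sc_exists w b D hw (hb x)
    have h2 := Finset.single_le_sum (f := fun k : Fin (D + 1) =>
      if x ∈ sc w b D i k then (w i x : ℝ) else 0) (s := univ)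
      (fun k _ => by
        show 0 ≤ (if x ∈ sc w b D i k then (w i x : ℝ) else 0)
        split_ifs <;> positivity) (Finset.mem_univ k)
    simp only [hk, if_true] at h2
    exact h2
  · have h0 : w i x = 0 := by omega
    rw [h0]
    simp

end

theorem sum_half (n : ℕ) : ∑ k ∈ Finset.range n, (1 / 2 : ℝ) ^ k ≤ 2 := by
  have h : ∑ k ∈ Finset.range n, (1 / 2 : ℝ) ^ k = 2 - 2 * (1 / 2) ^ n := by
    induction n with
    | zero => simp
    | succ n ih => rw [Finset.sum_range_succ, ih, pow_succ]; ring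
  rw [h]
  have : (0 : ℝ) < (1 / 2) ^ n := by positivity
  linarith

theorem sum_half_mul (n : ℕ) : ∑ k ∈ Finset.range n, (k : ℝ) * (1 / 2 : ℝ) ^ k ≤ 2 := by
  have h : ∑ k ∈ Finset.range n, (k : ℝ) * (1 / 2 : ℝ) ^ k = 2 - 2 * ((n : ℝ) + 1) * (1 / 2) ^ n := by
    induction n with
    | zero => simp
    | succ n ih =>
      rw [Finset.sum_range_succ, ih, pow_succ]
      push_cast
      ring
  rw [h]
  have : (0 : ℝ) < (1 / 2) ^ n := by positivity
  have h2 : (0 : ℝ) ≤ ((n : ℝ) + 1) * (1 / 2) ^ n := by positivity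
  linarith

theorem t_POP : S_POP := by
  intro b Bc r0 D X I _ _ w Wt hD hr0 hwb hws hWt
  have hD0 : (0 : ℝ) < D := by exact_mod_cast hD
  have hb : ∀ i x, w i x * 2 ^ b ≤ D := by
    intro i x
    have h1 := hwb i x
    rw [le_div_iff₀ (by positivity)] at h1
    exact_mod_cast h1
  let P : I × Fin (D + 1) × Fin (D + 1) → Finset (X × ℕ) := fun o =>
    (sc w b D o.1 o.2.2) ×ˢ {(o.2.1 : ℕ)}
  let r : I × Fin (D + 1) × Fin (D + 1) → ℕ := fun o =>
    r0 + o.2.2 + (sc w b D o.1 o.2.2).card / D + 1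
  have hPcard : ∀ o, (P o).card = (sc w b D o.1 o.2.2).card := by
    intro o
    simp [P]
  have hrow : ∀ o x, row (P o) x = if x ∈ sc w b D o.1 o.2.2 then 1 else 0 := by
    intro o x
    unfold row
    by_cases hx : x ∈ sc w b D o.1 o.2.2
    · rw [if_pos hx]
      have : (P o).filter (fun z => z.1 = x) = {(x, (o.2.1 : ℕ))} := by
        ext z
        simp only [P, Finset.mem_filter, Finset.mem_product, Finset.mem_singleton]
        constructor
        · rintro ⟨⟨h1, h2⟩, h3⟩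
          exact Prod.ext h3 h2
        · rintro rfl
          exact ⟨⟨hx, rfl⟩, rfl⟩
      rw [this, Finset.card_singleton]
    · rw [if_neg hx, Finset.card_eq_zero, Finset.filter_eq_empty_iff]
      rintro z hz rfl
      simp only [P, Finset.mem_product] at hz
      exact hx hz.1
  refine ⟨P, r, fun o => ?_, fun o => ?_, fun o => ?_, fun o x => ?_, fun x => ?_, fun x => ?_, ?_⟩
  · exact Nat.le_add_left 1 _
  · rw [hPcard]
    have h1 := Nat.lt_mul_div_succ (sc w b D o.1 o.2.2).card (show 0 < D by omega)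
    have h2 : D * ((sc w b D o.1 o.2.2).card / D + 1) ≤ D * r o :=
      Nat.mul_le_mul_left _ (by simp only [r]; omega)
    omega
  · rw [hPcard]
    refine le_trans ?_ (hWt o.1)
    have h1 : (sc w b D o.1 o.2.2).card ≤ ∑ x, w o.1 x := by
      calc (sc w b D o.1 o.2.2).card = ∑ x ∈ sc w b D o.1 o.2.2, 1 := by simp
        _ ≤ ∑ x ∈ sc w b D o.1 o.2.2, w o.1 x := Finset.sum_le_sum fun x hx => sc_pos w b D hx
        _ ≤ _ := Finset.sum_le_sum_of_subset (Finset.subset_univ _)
    exact_mod_cast h1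
  · rw [hrow]
    split_ifs <;> omega
  · -- number of rows
    have h1 : (univ.filter (fun o : I × Fin (D + 1) × Fin (D + 1) => row (P o) x ≠ 0)).card ≤
        ((univ.filter (fun i => w i x ≠ 0)) ×ˢ (univ : Finset (Fin (D + 1)))).card := by
      refine Finset.card_le_card_of_injOn (fun o => (o.1, o.2.1)) ?_ ?_
      · intro o ho
        have ho' := (Finset.mem_filter.1 ho).2
        rw [hrow] at ho'
        have hx : x ∈ sc w b D o.1 o.2.2 := by
          by_contra hc
          rw [if_neg hc] at ho'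
          exact ho' rfl
        have := sc_pos w b D hx
        simp only [Finset.coe_product, Finset.coe_filter, Finset.mem_univ, true_and,
          Finset.coe_univ, Set.mem_prod, Set.mem_ofPred_eq, Set.mem_univ, and_true]
        omega
      · intro o ho o' ho' heq
        have h2 := (Finset.mem_filter.1 ho).2
        have h2' := (Finset.mem_filter.1 ho').2
        rw [hrow] at h2 h2'
        have hx : x ∈ sc w b D o.1 o.2.2 := by
          by_contra hc
          rw [if_neg hc] at h2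
          exact h2 rfl
        have hx' : x ∈ sc w b D o'.1 o'.2.2 := by
          by_contra hc
          rw [if_neg hc] at h2'
          exact h2' rfl
        obtain ⟨i, l, k⟩ := o
        obtain ⟨i', l', k'⟩ := o'
        simp only [Prod.mk.injEq] at heq
        obtain ⟨rfl, rfl⟩ := heq
        have := Fin.ext (sc_unique w b D hx hx')
        simp only at this
        rw [this]
    refine h1.trans (le_of_eq ?_)
    rw [Finset.card_product, Finset.card_univ, Fintype.card_fin, mul_comm]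
  · -- weighted rows
    have h1 : ∀ i : I, ∀ l k : Fin (D + 1),
        (row (P (i, l, k)) x : ℝ) * (1 / 2) ^ (r (i, l, k)) ≤
          if x ∈ sc w b D i k then (1 / 2 : ℝ) ^ r0 * (w i x * 2 ^ (b + 1) / D) else 0 := by
      intro i l k
      rw [hrow]
      by_cases hx : x ∈ sc w b D i k
      · rw [if_pos hx, if_pos hx, Nat.cast_one, one_mul]
        have h2 : (1 / 2 : ℝ) ^ (r (i, l, k)) ≤ (1 / 2) ^ (r0 + (k : ℕ)) :=
          pow_le_pow_of_le_one (by norm_num) (by norm_num)
            ((Nat.le_add_right (r0 + (k : ℕ)) _).trans (Nat.le_succ _))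
        refine h2.trans ?_
        rw [pow_add]
        refine mul_le_mul_of_nonneg_left ?_ (by positivity)
        rw [le_div_iff₀ hD0]
        have h3 := ((mem_sc w b D).1 hx).2
        have h4 : (D : ℝ) ≤ w i x * 2 ^ (b + k + 1) := by exact_mod_cast h3.le
        calc (1 / 2 : ℝ) ^ (k : ℕ) * D ≤ (1 / 2 : ℝ) ^ (k : ℕ) * (w i x * 2 ^ (b + k + 1)) :=
              mul_le_mul_of_nonneg_left h4 (by positivity)
          _ = (w i x * 2 ^ (b + 1)) * ((1 / 2 : ℝ) ^ (k : ℕ) * 2 ^ (k : ℕ)) := by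
              rw [pow_add, pow_add, pow_add]; ring
          _ = w i x * 2 ^ (b + 1) := by rw [← mul_pow]; norm_num
      · rw [if_neg hx, if_neg hx]
        simp
    have h5 : ∑ o, (row (P o) x : ℝ) * (1 / 2) ^ (r o) ≤
        ∑ i : I, ∑ l : Fin (D + 1), (1 / 2 : ℝ) ^ r0 * (w i x * 2 ^ (b + 1) / D) := by
      rw [Fintype.sum_prod_type]
      refine Finset.sum_le_sum fun i _ => ?_
      rw [Fintype.sum_prod_type]
      refine Finset.sum_le_sum fun l _ => ?_
      refine (Finset.sum_le_sum fun k _ => h1 i l k).trans ?_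
      have hc : (0 : ℝ) ≤ (1 / 2 : ℝ) ^ r0 * (w i x * 2 ^ (b + 1) / D) := by positivity
      refine uniq_sum (fun k k' h h' => ?_) hc
      exact Fin.ext (sc_unique w b D h h')
    refine h5.trans ?_
    have h6 : ∑ i : I, ∑ l : Fin (D + 1), (1 / 2 : ℝ) ^ r0 * (w i x * 2 ^ (b + 1) / D) =
        ((D : ℝ) + 1) * ((1 / 2 : ℝ) ^ r0 * 2 ^ (b + 1) / D) * (∑ i : I, (w i x : ℝ)) := by
      rw [Finset.mul_sum]
      refine Finset.sum_congr rfl fun i _ => ?_
      rw [Finset.sum_const, Finset.card_univ, Fintype.card_fin, nsmul_eq_mul]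
      push_cast
      ring
    rw [h6]
    have h7 : ∑ i : I, (w i x : ℝ) ≤ 2 ^ Bc * D := by
      have := hws x
      exact_mod_cast this
    calc ((D : ℝ) + 1) * ((1 / 2 : ℝ) ^ r0 * 2 ^ (b + 1) / D) * (∑ i : I, (w i x : ℝ)) ≤
          ((D : ℝ) + 1) * ((1 / 2 : ℝ) ^ r0 * 2 ^ (b + 1) / D) * (2 ^ Bc * D) :=
          mul_le_mul_of_nonneg_left h7 (by positivity)
      _ = ((D : ℝ) + 1) * (2 ^ (b + Bc + 1)) / 2 ^ r0 := by
          rw [one_div, inv_pow, pow_add 2 (b + Bc) 1, pow_add 2 b Bc, pow_add 2 b 1]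
          field_simp
      _ ≤ ((D : ℝ) + 1) * 2 ^ (b + Bc + 2) / 2 ^ r0 := by
          have : (2 : ℝ) ^ (b + Bc + 1) ≤ 2 ^ (b + Bc + 2) :=
            pow_le_pow_right₀ (by norm_num) (by omega)
          gcongr
  · intro A f M hA hM i ℓ
    have hWt0 : 0 ≤ Wt := le_trans (Nat.cast_nonneg _) (hWt i)
    push_cast
    by_cases hl : ℓ ≤ D
    swap
    · have : A.filter (fun x => f x = ℓ) = ∅ := by
        rw [Finset.filter_eq_empty_iff]
        intro x hx h
        have := hA x hx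
        omega
      rw [this, Finset.sum_empty]
      positivity
    have h1 := le_sum_sc w b D i (hb i) (A.filter (fun x => f x = ℓ))
    refine h1.trans ?_
    let l : Fin (D + 1) := ⟨ℓ, by omega⟩
    -- each scale
    have h2 : ∀ k : Fin (D + 1),
        ∑ x ∈ (A.filter (fun x => f x = ℓ)).filter (fun x => x ∈ sc w b D i k), (w i x : ℝ) ≤
          (M * (r0 + k + (sc w b D i k).card / D + 1) : ℝ) * (D / 2 ^ (b + (k : ℕ))) := by
      intro k
      have h3 : ∀ x ∈ (A.filter (fun x => f x = ℓ)).filter (fun x => x ∈ sc w b D i k),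
          (w i x : ℝ) ≤ D / 2 ^ (b + (k : ℕ)) := by
        intro x hx
        have hx' := (Finset.mem_filter.1 hx).2
        rw [le_div_iff₀ (by positivity)]
        exact_mod_cast ((mem_sc w b D).1 hx').1
      refine (Finset.sum_le_card_nsmul _ _ _ h3).trans ?_
      rw [nsmul_eq_mul]
      refine mul_le_mul_of_nonneg_right ?_ (by positivity)
      have h4 : ((A.filter (fun x => f x = ℓ)).filter (fun x => x ∈ sc w b D i k)).card =
          hits (P (i, l, k)) A f := by
        unfold hits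
        congr 1
        ext x
        simp only [P, Finset.mem_filter, Finset.mem_product, Finset.mem_singleton, l]
        tauto
      rw [h4]
      have h5 : (hits (P (i, l, k)) A f : ℝ) ≤ M * (r (i, l, k) : ℝ) := by
        exact_mod_cast hM (i, l, k)
      refine h5.trans (mul_le_mul_of_nonneg_left ?_ (by positivity))
      simp only [r]
      push_cast
      have h6 : (((sc w b D i k).card / D : ℕ) : ℝ) ≤ ((sc w b D i k).card : ℝ) / D :=
        Nat.cast_div_le
      linarith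
    refine (Finset.sum_le_sum fun k _ => h2 k).trans ?_
    -- sum over the scales
    have h3 : ∀ k : Fin (D + 1),
        (M * (r0 + k + (sc w b D i k).card / D + 1) : ℝ) * (D / 2 ^ (b + (k : ℕ))) ≤
          M * (D / 2 ^ b) * ((r0 + 1) * (1 / 2) ^ (k : ℕ) + (k : ℕ) * (1 / 2) ^ (k : ℕ)) +
            M * (2 / D) * ∑ x ∈ sc w b D i k, (w i x : ℝ) := by
      intro k
      have h4 : ((sc w b D i k).card : ℝ) * (D / 2 ^ (b + (k : ℕ))) ≤
          2 * ∑ x ∈ sc w b D i k, (w i x : ℝ) := by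
        rw [Finset.mul_sum, ← nsmul_eq_mul]
        refine Finset.card_nsmul_le_sum _ _ _ fun x hx => ?_
        rw [div_le_iff₀ (by positivity)]
        have h5 := ((mem_sc w b D).1 hx).2
        have h6 : (D : ℝ) ≤ w i x * 2 ^ (b + k + 1) := by exact_mod_cast h5.le
        refine h6.trans (le_of_eq ?_)
        rw [pow_succ]
        ring
      have h7 : (D : ℝ) / 2 ^ (b + (k : ℕ)) = D / 2 ^ b * (1 / 2) ^ (k : ℕ) := by
        rw [pow_add, one_div, inv_pow]
        field_simp
      calc (M * (r0 + k + (sc w b D i k).card / D + 1) : ℝ) * (D / 2 ^ (b + (k : ℕ))) =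
            M * ((r0 + 1 + (k : ℕ)) * (D / 2 ^ (b + (k : ℕ)))) +
              M * (1 / D) * (((sc w b D i k).card : ℝ) * (D / 2 ^ (b + (k : ℕ)))) := by ring
        _ ≤ M * ((r0 + 1 + (k : ℕ)) * (D / 2 ^ (b + (k : ℕ)))) +
              M * (1 / D) * (2 * ∑ x ∈ sc w b D i k, (w i x : ℝ)) := by
            have := mul_le_mul_of_nonneg_left h4 (show (0 : ℝ) ≤ M * (1 / D) by positivity)
            linarith
        _ = _ := by rw [h7]; ring
    refine (Finset.sum_le_sum fun k _ => h3 k).trans ?_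
    rw [Finset.sum_add_distrib, ← Finset.mul_sum, ← Finset.mul_sum, Finset.sum_add_distrib,
      ← Finset.mul_sum]
    have h4 : ∑ k : Fin (D + 1), (1 / 2 : ℝ) ^ (k : ℕ) ≤ 2 := by
      rw [Fin.sum_univ_eq_sum_range (fun k => (1 / 2 : ℝ) ^ k)]
      exact sum_half _
    have h5 : ∑ k : Fin (D + 1), ((k : ℕ) : ℝ) * (1 / 2 : ℝ) ^ (k : ℕ) ≤ 2 := by
      rw [Fin.sum_univ_eq_sum_range (fun k => (k : ℝ) * (1 / 2 : ℝ) ^ k)]
      exact sum_half_mul _
    have h6 : ∑ k : Fin (D + 1), ∑ x ∈ sc w b D i k, (w i x : ℝ) ≤ Wt := by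
      refine (sum_sc_le w b D i).trans ?_
      have := hWt i
      push_cast at this
      exact this
    have h7 : ((r0 : ℝ) + 1) * ∑ k : Fin (D + 1), (1 / 2 : ℝ) ^ (k : ℕ) ≤ (r0 + 1) * 2 :=
      mul_le_mul_of_nonneg_left h4 (by positivity)
    have h8 : M * ((D : ℝ) / 2 ^ b) * ((r0 + 1) * ∑ k : Fin (D + 1), (1 / 2 : ℝ) ^ (k : ℕ) +
        ∑ k : Fin (D + 1), ((k : ℕ) : ℝ) * (1 / 2 : ℝ) ^ (k : ℕ)) ≤
          M * ((D : ℝ) / 2 ^ b) * (2 * r0 + 6) :=
      mul_le_mul_of_nonneg_left (by linarith) (by positivity)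
    have h9 : M * (2 / (D : ℝ)) * ∑ k : Fin (D + 1), ∑ x ∈ sc w b D i k, (w i x : ℝ) ≤
        M * (2 / (D : ℝ)) * Wt := mul_le_mul_of_nonneg_left h6 (by positivity)
    calc _ ≤ M * ((D : ℝ) / 2 ^ b) * (2 * r0 + 6) + M * (2 / (D : ℝ)) * Wt := add_le_add h8 h9
      _ = _ := by ring

end Pool.Agent.K1H38.HYC
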